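import Pool.Agent.TH996.SM.Main
import Pool.Agent.TH996.SM.Line
import Pool.Agent.TH996.SM.Det

/-!
# MP_818a86_pr in dimension 1: not all points are matched, for every `p < 1`

The Poisson process on the line is given by its spacings: `ξ z`, `z ∈ ℤ`, are i.i.d., `(ξ z).1` is
exponential of mean 1 and `(ξ z).2` is red (`true`) with probability `p`, independently; the points
are `pt ξ z`. For every `p < 1` there is an event of positive probability on which the first point
to the right of the origin is blue and unmatched in every stable matching.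
-/

open MeasureTheory ProbabilityTheory Filter
open scoped ENNReal Topology unitInterval

namespace Pool.Agent.Results.MP_818a86_pr.LineUnmatched

open Pool.Agent.TH996.SM

theorem result (p : I) (hp : (p : ℝ) < 1) {Ω : Type} [MeasurableSpace Ω] {P : Measure Ω}
    [IsProbabilityMeasure P] {ξ : ℤ → Ω → ℝ × Bool} (hm : ∀ z, Measurable (ξ z))
    (hind : iIndepFun ξ P) (hlaw : ∀ z, P.map (ξ z) = law p) :
    ∃ E : Set Ω, MeasurableSet E ∧ 0 < P E ∧ ∀ ω ∈ E, (ξ 0 ω).2 = false ∧
      ∀ M : ℝ → ℝ, IsStableMatching (pts (fun z => ξ z ω)) (reds (fun z => ξ z ω)) M →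
        M (pt (fun z => ξ z ω) 0) = pt (fun z => ξ z ω) 0 := by
  classical
  obtain ⟨δ, hδ, hU⟩ := main_prob p hp
  set U : Set Env := ⋂ t : ℕ, UU false (t : ℝ) with hUdef
  have hUm : MeasurableSet U := MeasurableSet.iInter fun t => measurable_UU false _
  have hpos : 0 < PP p U := by
    have h1 : PP p U = ⨅ t : ℕ, PP p (UU false ((t + 1 : ℕ) : ℝ) ∩ UU false 0) := by
      have hanti : Antitone (fun t : ℕ => UU false ((t + 1 : ℕ) : ℝ) ∩ UU false 0) := by
        intro a b hab
        exact Set.inter_subset_inter_left _ (UU_anti false (by exact_mod_cast (by omega)) (by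
          exact_mod_cast Nat.succ_pos a))
      have h2 : U = ⋂ t : ℕ, (UU false ((t + 1 : ℕ) : ℝ) ∩ UU false 0) := by
        ext e
        simp only [hUdef, Set.mem_iInter, Set.mem_inter_iff]
        constructor
        · intro h t
          exact ⟨h (t + 1), by simpa using h 0⟩
        · intro h t
          rcases t with _ | t
          · simpa using (h 0).2
          · exact (h t).1
      rw [h2]
      exact hanti.measure_iInter
        (fun t => ((measurable_UU _ _).inter (measurable_UU _ _)).nullMeasurableSet)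
        ⟨0, measure_ne_top _ _⟩
    have h0 : PP p (UU false 0)ᶜ = 0 := by
      have : ∀ᵐ e ∂(PP p), e ∈ UU false 0 := by
        filter_upwards [nice_ae p] with e he
        exact UU_first (he.gap 0).le
      exact this
    have h3 : ∀ t : ℕ, δ ≤ PP p (UU false ((t + 1 : ℕ) : ℝ) ∩ UU false 0) := by
      intro t
      have h4 : PP p (UU false ((t + 1 : ℕ) : ℝ) ∩ UU false 0) =
          PP p (UU false ((t + 1 : ℕ) : ℝ)) := by
        apply measure_congr
        have : ∀ᵐ e ∂(PP p), e ∈ UU false 0 := h0
        filter_upwards [this] with e he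
        apply propext
        exact ⟨fun h => h.1, fun h => ⟨h, he⟩⟩
      rw [h4]
      exact hU _
    rw [h1]
    exact hδ.trans_le (le_iInf h3)
  have hq : 0 < ENNReal.ofReal (1 - (p : ℝ)) := ENNReal.ofReal_pos.2 (by linarith)
  have hl := line_prob p hm hind hlaw hUm
  have hae := line_ae p hm hind hlaw
  set F : Set Ω := {ω | (ξ 0 ω).2 = false ∧ (fun k : ℕ => ξ (k + 1) ω) ∈ U ∧
      (fun k : ℕ => ξ (-(k : ℤ) - 1) ω) ∈ U} with hF
  have hFm : MeasurableSet F := by
    refine MeasurableSet.inter ?_ (MeasurableSet.inter ?_ ?_)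
    · exact (measurable_snd.comp (hm 0)) (measurableSet_singleton false)
    · exact (measurable_pi_lambda _ fun k : ℕ => hm (k + 1)) hUm
    · exact (measurable_pi_lambda _ fun k : ℕ => hm (-(k : ℤ) - 1)) hUm
  have hFpos : 0 < P F := by
    rw [hl]
    exact ENNReal.mul_pos (ENNReal.mul_pos hq.ne' hpos.ne').ne' hpos.ne'
  -- a measurable set of full measure on which the configuration is generic
  obtain ⟨N, hN, hNm, hN0⟩ := exists_measurable_superset_of_null (ae_iff.1 hae)
  refine ⟨F \ N, hFm.diff hNm, ?_, ?_⟩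
  · rw [measure_sdiff_null hN0]
    exact hFpos
  · intro ω hω
    have hg : ¬ ¬ ((∀ z, 0 < (ξ z ω).1) ∧ Gen (pt (fun z => ξ z ω)) Set.univ) :=
      fun h => hω.2 (hN h)
    obtain ⟨hg1, hg2⟩ := not_not.1 hg
    refine ⟨hω.1.1, fun M hM => ?_⟩
    have hR := hω.1.2.1
    have hL := hω.1.2.2
    exact final_det (ξ := fun z => ξ z ω) hg1 hg2 hω.1.1
      (fun t => Set.mem_iInter.1 hR t) (fun t => Set.mem_iInter.1 hL t) hM

end Pool.Agent.Results.MP_818a86_pr.LineUnmatched
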